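import Pool.Agent.N645.LS.L7a

/-!
# LS11: the two block inequality
-/

set_option autoImplicit false

namespace Pool.Agent.N966.LS

open Finset Pool.Agent.N356.SP
open Pool.Agent.N645.LS (cosp_cont cosp_add cosp_smul)

/-- the Cauchy-Schwarz inequality on `[0, 1]` -/
theorem cs {u v : ℝ → ℝ} (hu : Continuous u) (hv : Continuous v) :
    (∫ x in (0:ℝ)..1, u x * v x) ^ 2 ≤
      (∫ x in (0:ℝ)..1, u x ^ 2) * ∫ x in (0:ℝ)..1, v x ^ 2 := by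
  have h1 : ∀ s : ℝ, 0 ≤ (∫ x in (0:ℝ)..1, v x ^ 2) * (s * s) +
      (2 * ∫ x in (0:ℝ)..1, u x * v x) * s + ∫ x in (0:ℝ)..1, u x ^ 2 := by
    intro s
    have h2 : 0 ≤ ∫ x in (0:ℝ)..1, (u x + s * v x) ^ 2 :=
      intervalIntegral.integral_nonneg zero_le_one fun x _ => sq_nonneg _
    have i1 : IntervalIntegrable (fun x => (s * s) * v x ^ 2) MeasureTheory.volume 0 1 :=
      (continuous_const.mul (hv.pow 2)).intervalIntegrable 0 1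
    have i2 : IntervalIntegrable (fun x => (2 * s) * (u x * v x)) MeasureTheory.volume 0 1 :=
      (continuous_const.mul (hu.mul hv)).intervalIntegrable 0 1
    have i3 : IntervalIntegrable (fun x => u x ^ 2) MeasureTheory.volume 0 1 :=
      (hu.pow 2).intervalIntegrable 0 1
    have h3 : ∫ x in (0:ℝ)..1, (u x + s * v x) ^ 2 =
        (s * s) * (∫ x in (0:ℝ)..1, v x ^ 2) + (2 * s) * (∫ x in (0:ℝ)..1, u x * v x) +
          ∫ x in (0:ℝ)..1, u x ^ 2 := by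
      rw [← intervalIntegral.integral_const_mul, ← intervalIntegral.integral_const_mul,
        ← intervalIntegral.integral_add i1 i2, ← intervalIntegral.integral_add (i1.add i2) i3]
      refine intervalIntegral.integral_congr fun x _ => ?_
      ring
    rw [h3] at h2
    linarith
  have h2 := discrim_le_zero h1
  unfold discrim at h2
  nlinarith

theorem AJ_cs (g f : ℤ →₀ ℝ) : AJ 2 4 g f ^ 2 ≤ AJ 4 2 g f * Mc 3 f ∧
    AJ 1 5 g f ^ 2 ≤ AJ 2 4 g f * Mc 3 f ∧ 0 ≤ AJ 2 4 g f := by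
  have hg := cosp_cont g
  have hf := cosp_cont f
  refine ⟨?_, ?_, ?_⟩
  · have h := cs (u := fun x => cosp g x ^ 2 * cosp f x) (v := fun x => cosp f x ^ 3)
      (by fun_prop) (by fun_prop)
    unfold AJ Mc
    calc _ = (∫ x in (0:ℝ)..1, cosp g x ^ 2 * cosp f x * cosp f x ^ 3) ^ 2 := by
          congr 1
          exact intervalIntegral.integral_congr fun x _ => by ring
      _ ≤ _ := h
      _ = _ := by
          congr 1
          · exact intervalIntegral.integral_congr fun x _ => by ring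
          · exact intervalIntegral.integral_congr fun x _ => by ring
  · have h := cs (u := fun x => cosp g x * cosp f x ^ 2) (v := fun x => cosp f x ^ 3)
      (by fun_prop) (by fun_prop)
    unfold AJ Mc
    calc _ = (∫ x in (0:ℝ)..1, cosp g x * cosp f x ^ 2 * cosp f x ^ 3) ^ 2 := by
          congr 1
          exact intervalIntegral.integral_congr fun x _ => by ring
      _ ≤ _ := h
      _ = _ := by
          congr 1
          · exact intervalIntegral.integral_congr fun x _ => by ring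
          · exact intervalIntegral.integral_congr fun x _ => by ring
  · unfold AJ
    refine intervalIntegral.integral_nonneg zero_le_one fun x _ => ?_
    positivity

theorem Mc_exp (g f : ℤ →₀ ℝ) (t : ℝ) : Mc 3 (g + t • f) = Mc 3 g + 6 * t * AJ 5 1 g f +
    15 * t ^ 2 * AJ 4 2 g f + 20 * t ^ 3 * AJ 3 3 g f + 15 * t ^ 4 * AJ 2 4 g f +
    6 * t ^ 5 * AJ 1 5 g f + t ^ 6 * Mc 3 f := by
  have hg := cosp_cont g
  have hf := cosp_cont f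
  have h1 : Mc 3 (g + t • f) = ∫ x in (0:ℝ)..1, ∑ i ∈ range 7,
      (((6).choose i : ℝ) * t ^ i) * (cosp g x ^ (6 - i) * cosp f x ^ i) := by
    unfold Mc
    refine intervalIntegral.integral_congr fun x _ => ?_
    simp only [cosp_add, cosp_smul]
    simp only [sum_range_succ, sum_range_zero, Nat.choose]
    push_cast
    ring
  rw [h1, intervalIntegral.integral_finsetSum (fun i _ =>
    (Continuous.intervalIntegrable (by fun_prop) 0 1))]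
  simp only [intervalIntegral.integral_const_mul, sum_range_succ, sum_range_zero, Nat.choose]
  unfold Mc AJ
  norm_num

/-- the statement of LS10 -/
def PIst : Prop := ∀ {y A2 A3 A4 A5 : ℝ}, 0 ≤ y → y ≤ 31 / 50 → 0 ≤ A2 → 0 ≤ A4 →
  5 / 2 * A2 ^ 3 + 8 / 3 * A3 ^ 2 ≤ y ^ 3 → A4 ^ 2 ≤ A2 * y ^ 3 → A5 ^ 2 ≤ A4 * y ^ 3 →
    1 + 15 * A2 + 20 * A3 + 15 * A4 + 6 * A5 + y ^ 3 ≤ 1 + 3 * c3 * y + 241 / 10 * y ^ 2

theorem two_block3_of (PI : PIst) {g f : ℤ →₀ ℝ}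
    (star3 : 0 ≤ AJ 4 2 g f ∧
      5 / 2 * AJ 4 2 g f ^ 3 + 8 / 3 * 20 * AJ 3 3 g f ^ 2 ≤ 20 ^ 2 * Mc 3 f)
    (A1_eq : AJ 5 1 g f = 0) (hG : Mc 3 g ≤ 20) (hF : Mc 3 f ≤ 20)
    {t : ℝ} (ht0 : 0 ≤ t) (ht1 : t ^ 2 ≤ 31 / 50) :
    Mc 3 (g + t • f) ≤ 20 * (1 + 3 * c3 * t ^ 2 + 241 / 10 * t ^ 4) := by
  obtain ⟨h42, hst⟩ := star3
  obtain ⟨c1, c2, h24⟩ := AJ_cs g f
  have ht6 : 0 ≤ t ^ 6 := by positivity
  have h := PI (y := t ^ 2) (A2 := t ^ 2 * AJ 4 2 g f / 20) (A3 := t ^ 3 * AJ 3 3 g f / 20)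
    (A4 := t ^ 4 * AJ 2 4 g f / 20) (A5 := t ^ 5 * AJ 1 5 g f / 20) (by positivity) ht1
    (by positivity) (by positivity) (by
      have h1 : 5 / 2 * AJ 4 2 g f ^ 3 + 8 / 3 * 20 * AJ 3 3 g f ^ 2 ≤ 8000 := by linarith
      have h2 := mul_le_mul_of_nonneg_left h1 ht6
      calc 5 / 2 * (t ^ 2 * AJ 4 2 g f / 20) ^ 3 + 8 / 3 * (t ^ 3 * AJ 3 3 g f / 20) ^ 2 =
          t ^ 6 * (5 / 2 * AJ 4 2 g f ^ 3 + 8 / 3 * 20 * AJ 3 3 g f ^ 2) / 8000 := by ring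
        _ ≤ t ^ 6 * 8000 / 8000 := by gcongr
        _ = (t ^ 2) ^ 3 := by ring) (by
      have h1 : AJ 2 4 g f ^ 2 ≤ AJ 4 2 g f * 20 :=
        c1.trans (mul_le_mul_of_nonneg_left hF h42)
      have h2 : 0 ≤ t ^ 8 := by positivity
      calc (t ^ 4 * AJ 2 4 g f / 20) ^ 2 = t ^ 8 * AJ 2 4 g f ^ 2 / 400 := by ring
        _ ≤ t ^ 8 * (AJ 4 2 g f * 20) / 400 := by gcongr
        _ = t ^ 2 * AJ 4 2 g f / 20 * (t ^ 2) ^ 3 := by ring) (by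
      have h1 : AJ 1 5 g f ^ 2 ≤ AJ 2 4 g f * 20 :=
        c2.trans (mul_le_mul_of_nonneg_left hF h24)
      have h2 : 0 ≤ t ^ 10 := by positivity
      calc (t ^ 5 * AJ 1 5 g f / 20) ^ 2 = t ^ 10 * AJ 1 5 g f ^ 2 / 400 := by ring
        _ ≤ t ^ 10 * (AJ 2 4 g f * 20) / 400 := by gcongr
        _ = t ^ 4 * AJ 2 4 g f / 20 * (t ^ 2) ^ 3 := by ring)
  rw [Mc_exp, A1_eq]
  have h6 : t ^ 6 * Mc 3 f ≤ t ^ 6 * 20 := mul_le_mul_of_nonneg_left hF ht6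
  have e : (t ^ 2) ^ 3 = t ^ 6 := by ring
  have e4 : (t ^ 2) ^ 2 = t ^ 4 := by ring
  rw [e, e4] at h
  linarith

/-- the statement of LS9 -/
def Star3 {m : ℕ} (C : Finset (ZMod m)) (θ : ZMod m → ZMod m → ℝ) : Prop :=
  ∀ {g f : ℤ →₀ ℝ}, GoodC C θ → (∀ n, 0 ≤ g n) → (∀ n, 0 ≤ f n) →
    (∀ n ∈ g.support, ((n : ℤ) : ZMod m) = 0) → (∀ n ∈ f.support, ((n : ℤ) : ZMod m) ∈ C) →
    ∀ {G : ℝ}, Mc 3 g ≤ G → 0 ≤ AJ 4 2 g f ∧
      5 / 2 * AJ 4 2 g f ^ 3 + 8 / 3 * G * AJ 3 3 g f ^ 2 ≤ G ^ 2 * Mc 3 f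

/-- the statement of LS8d -/
def A1Eq {m : ℕ} (C : Finset (ZMod m)) : Prop :=
  ∀ {g f : ℤ →₀ ℝ}, (∀ s ∈ C, -s ∈ C) → (∀ s ∈ C, s ≠ -s) → (∀ n, 0 ≤ g n) → (∀ n, 0 ≤ f n) →
    (∀ n ∈ g.support, ((n : ℤ) : ZMod m) = 0) → (∀ n ∈ f.support, ((n : ℤ) : ZMod m) ∈ C) →
    ∀ i : ℕ, AJ i 1 g f = 0

/-- LS11 -/
theorem two_block3 (PI : PIst) {m : ℕ} {C : Finset (ZMod m)} {θ : ZMod m → ZMod m → ℝ}
    {g f : ℤ →₀ ℝ} (star3 : Star3 C θ) (A1_eq : A1Eq C)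
    (h : GoodC C θ) (hg0 : ∀ n, 0 ≤ g n) (hf0 : ∀ n, 0 ≤ f n)
    (hg : ∀ n ∈ g.support, ((n : ℤ) : ZMod m) = 0)
    (hf : ∀ n ∈ f.support, ((n : ℤ) : ZMod m) ∈ C) (hG : Mc 3 g ≤ 20) (hF : Mc 3 f ≤ 20)
    {t : ℝ} (ht0 : 0 ≤ t) (ht1 : t ^ 2 ≤ 31 / 50) :
    Mc 3 (g + t • f) ≤ 20 * (1 + 3 * c3 * t ^ 2 + 241 / 10 * t ^ 4) :=
  two_block3_of PI (star3 h hg0 hf0 hg hf hG) (A1_eq h.neg h.ne hg0 hf0 hg hf 5) hG hF ht0 ht1

end Pool.Agent.N966.LS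

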