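import Pool.Agent.N356.SP.Defs

/-!
# LS3a: antipodal triples against the others
-/

set_option autoImplicit false

namespace Pool.Agent.N966.LS

open Finset Pool.Agent.N356.SP

variable {Γ : Type*} [AddCommGroup Γ]

theorem TQ_sum {C : Finset Γ} (g : Γ × Γ × Γ × Γ → ℝ)
    (hg : ∀ Q : Γ × Γ × Γ × Γ, Q.1 + Q.2.1 + Q.2.2.1 + Q.2.2.2 ≠ 0 → g Q = 0) :
    ∑ Q ∈ TQ C, g Q = ∑ c ∈ C, ∑ T ∈ TY C, g (c, T) := by
  classical
  have h1 : ∑ Q ∈ TQ C, g Q = ∑ Q ∈ C ×ˢ TY C, g Q := by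
    unfold TQ
    refine sum_filter_of_ne fun Q _ h => ?_
    by_contra h2
    exact h (hg Q h2)
  rw [h1, sum_product]

/-- LS3a -/
theorem AY {C : Finset Γ}
    (sumA : ∀ F : Multiset Γ → ℝ, ∑ T ∈ TA C, F (ms T) =
      3 * (∑ c ∈ C, ∑ x ∈ C, F {c, x, -x}) - 3 * ∑ c ∈ C, F {c, c, -c})
    (I : Multiset Γ → ℝ) (Iz : ∀ U : Multiset Γ, U.sum ≠ 0 → I U = 0) :
    ∑ T ∈ TA C, ∑ T' ∈ TY C, I (ms T + ms T') =
      3 * (∑ Q ∈ TQ C, ∑ x ∈ C, I ({x, -x} + (Q.1 ::ₘ ms Q.2))) -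
      3 * ∑ Q ∈ TQ C, I ({Q.1, -Q.1} + (Q.1 ::ₘ ms Q.2)) := by
  have hz : ∀ (x : Γ) (Q : Γ × Γ × Γ × Γ), Q.1 + Q.2.1 + Q.2.2.1 + Q.2.2.2 ≠ 0 →
      I ({x, -x} + (Q.1 ::ₘ ms Q.2)) = 0 := by
    intro x Q hQ
    apply Iz
    have h1 : (({x, -x} : Multiset Γ) + (Q.1 ::ₘ ms Q.2)).sum =
        Q.1 + Q.2.1 + Q.2.2.1 + Q.2.2.2 := by
      unfold ms
      simp only [Multiset.sum_add, Multiset.insert_eq_cons, Multiset.sum_cons,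
        Multiset.sum_singleton]
      abel
    rw [h1]
    exact hQ
  rw [TQ_sum (C := C) (fun Q => ∑ x ∈ C, I ({x, -x} + (Q.1 ::ₘ ms Q.2)))
      (fun Q hQ => sum_eq_zero fun x _ => hz x Q hQ),
    TQ_sum (C := C) (fun Q => I ({Q.1, -Q.1} + (Q.1 ::ₘ ms Q.2))) (fun Q hQ => hz Q.1 Q hQ),
    sumA fun U => ∑ T' ∈ TY C, I (U + ms T')]
  have he : ∀ (c x : Γ) (M : Multiset Γ), ({c, x, -x} : Multiset Γ) + M =
      {x, -x} + (c ::ₘ M) := by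
    intro c x M
    rw [Multiset.insert_eq_cons, Multiset.cons_add, Multiset.add_cons]
  simp only [he]
  congr 2
  exact sum_congr rfl fun c _ => sum_comm

end Pool.Agent.N966.LS

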