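import Mathlib

/-!
# LS2a: three different types
-/

set_option autoImplicit false

namespace Pool.Agent.N966.LS

open Finset

variable {Γ : Type*} [AddCommGroup Γ]

/-- the pair of an element and its negative -/
def P (x : Γ) : Multiset Γ := {x, -x}

lemma P_neg (x : Γ) : P (-x) = P x := by
  unfold P
  rw [neg_neg, Multiset.pair_comm]

lemma six (x y z : Γ) : ({x, -x, y, -y, z, -z} : Multiset Γ) = P x + (P y + P z) := by
  simp only [P, Multiset.insert_eq_cons, Multiset.cons_add, Multiset.singleton_add]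

open Classical in
lemma pair_sum {C : Finset Γ} (hneg : ∀ s ∈ C, -s ∈ C) (hne : ∀ s ∈ C, s ≠ -s) {x : Γ}
    (hx : x ∈ C) (g : Γ → ℝ) :
    ∑ y ∈ C, (if y = x ∨ y = -x then g y else 0) = g x + g (-x) := by
  rw [← Finset.sum_filter]
  have h : C.filter (fun y => y = x ∨ y = -x) = {x, -x} := by
    ext y
    simp only [mem_filter, mem_insert, mem_singleton]
    constructor
    · exact fun h => h.2
    · intro h
      refine ⟨?_, h⟩
      rcases h with h | h
      · rw [h]; exact hx
      · rw [h]; exact hneg _ hx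
  rw [h, Finset.sum_pair (hne x hx)]

open Classical in
/-- the indicator function of the relation -/
noncomputable def a (x y : Γ) : ℝ := if y = x ∨ y = -x then 1 else 0

lemma mul_a (x y : Γ) (t : ℝ) : t * a x y = (by classical exact if y = x ∨ y = -x then t else 0) := by
  classical
  unfold a
  split_ifs <;> simp

lemma fac_nonneg (x y z : Γ) : 0 ≤ 1 - a x y - a y z - a x z + 2 * (a x y * a y z) := by
  unfold a
  by_cases h1 : y = x ∨ y = -x
  · by_cases h2 : z = y ∨ z = -y
    · have h3 : z = x ∨ z = -x := by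
        rcases h1 with rfl | rfl
        · exact h2
        · rcases h2 with h2 | h2
          · exact Or.inr h2
          · left
            rw [h2, neg_neg]
      rw [if_pos h1, if_pos h2, if_pos h3]
      norm_num
    · have h3 : ¬ (z = x ∨ z = -x) := by
        rintro h3
        apply h2
        rcases h1 with rfl | rfl
        · exact h3
        · rcases h3 with h3 | h3
          · right
            rw [h3, neg_neg]
          · exact Or.inl h3
      rw [if_pos h1, if_neg h2, if_neg h3]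
      norm_num
  · by_cases h2 : z = y ∨ z = -y
    · have h3 : ¬ (z = x ∨ z = -x) := by
        rintro h3
        apply h1
        rcases h2 with rfl | rfl
        · exact h3
        · rcases h3 with h3 | h3
          · right
            rw [← h3, neg_neg]
          · left
            exact neg_injective h3
      rw [if_neg h1, if_pos h2, if_neg h3]
      norm_num
    · rw [if_neg h1, if_neg h2]
      split_ifs <;> norm_num

theorem distinct_nonneg {C : Finset Γ} (hneg : ∀ s ∈ C, -s ∈ C) (hne : ∀ s ∈ C, s ≠ -s)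
    (I : Multiset Γ → ℝ) (I0 : ∀ U, 0 ≤ I U) :
    0 ≤ (∑ x ∈ C, ∑ y ∈ C, ∑ z ∈ C, I {x, -x, y, -y, z, -z}) -
      6 * (∑ x ∈ C, ∑ y ∈ C, I {x, -x, x, -x, y, -y}) +
      8 * ∑ x ∈ C, I {x, -x, x, -x, x, -x} := by
  simp only [six]
  set K : Γ → Γ → Γ → ℝ := fun x y z => I (P x + (P y + P z)) with hK
  have hK1 : ∀ x y z, K x y z = K x z y := fun x y z => by
    simp only [hK]
    rw [add_comm (P y) (P z)]
  have hK2 : ∀ x y z, K x y z = K y x z := fun x y z => by
    simp only [hK]
    rw [add_left_comm]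
  have hK3 : ∀ x y z, K x y (-z) = K x y z := fun x y z => by
    simp only [hK, P_neg]
  have hK4 : ∀ x y z, K x (-y) z = K x y z := fun x y z => by
    simp only [hK, P_neg]
  have e1 : ∑ x ∈ C, ∑ y ∈ C, ∑ z ∈ C, K x y z * a x y = 2 * ∑ x ∈ C, ∑ y ∈ C, K x x y := by
    rw [mul_sum]
    refine sum_congr rfl fun x hx => ?_
    have h : ∑ y ∈ C, ∑ z ∈ C, K x y z * a x y =
        ∑ y ∈ C, (by classical exact if y = x ∨ y = -x then ∑ z ∈ C, K x y z else 0) := by
      refine sum_congr rfl fun y _ => ?_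
      rw [← mul_a, sum_mul]
    rw [h, pair_sum hneg hne hx]
    simp only [hK4]
    ring
  have e2 : ∑ x ∈ C, ∑ y ∈ C, ∑ z ∈ C, K x y z * a y z = 2 * ∑ x ∈ C, ∑ y ∈ C, K x x y := by
    have h : ∀ x ∈ C, ∀ y ∈ C, ∑ z ∈ C, K x y z * a y z = 2 * K y y x := by
      intro x _ y hy
      simp only [mul_a]
      rw [pair_sum hneg hne hy, hK3, hK2 x y y, hK1 y x y]
      ring
    rw [sum_congr rfl fun x hx => sum_congr rfl fun y hy => h x hx y hy, sum_comm]
    simp only [mul_sum]
  have e3 : ∑ x ∈ C, ∑ y ∈ C, ∑ z ∈ C, K x y z * a x z = 2 * ∑ x ∈ C, ∑ y ∈ C, K x x y := by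
    have h : ∀ x ∈ C, ∀ y ∈ C, ∑ z ∈ C, K x y z * a x z = 2 * K x x y := by
      intro x hx y _
      simp only [mul_a]
      rw [pair_sum hneg hne hx, hK3, hK1 x y x]
      ring
    rw [sum_congr rfl fun x hx => sum_congr rfl fun y hy => h x hx y hy]
    simp only [mul_sum]
  have e4 : ∑ x ∈ C, ∑ y ∈ C, ∑ z ∈ C, K x y z * (a x y * a y z) =
      4 * ∑ x ∈ C, K x x x := by
    rw [mul_sum]
    refine sum_congr rfl fun x hx => ?_
    have h : ∑ y ∈ C, ∑ z ∈ C, K x y z * (a x y * a y z) =
        ∑ y ∈ C, (by classical exact if y = x ∨ y = -x then 2 * K x y y else 0) := by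
      refine sum_congr rfl fun y hy => ?_
      rw [← mul_a]
      have h1 : ∑ z ∈ C, K x y z * a y z = 2 * K x y y := by
        simp only [mul_a]
        rw [pair_sum hneg hne hy, hK3]
        ring
      rw [← h1, sum_mul]
      exact sum_congr rfl fun z _ => by ring
    rw [h, pair_sum hneg hne hx, hK3, hK4]
    ring
  have key : 0 ≤ ∑ x ∈ C, ∑ y ∈ C, ∑ z ∈ C,
      K x y z * (1 - a x y - a y z - a x z + 2 * (a x y * a y z)) :=
    sum_nonneg fun x _ => sum_nonneg fun y _ => sum_nonneg fun z _ =>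
      mul_nonneg (I0 _) (fac_nonneg x y z)
  have e5 : ∑ x ∈ C, ∑ y ∈ C, ∑ z ∈ C,
      K x y z * (1 - a x y - a y z - a x z + 2 * (a x y * a y z)) =
      ∑ x ∈ C, ∑ y ∈ C, ∑ z ∈ C, K x y z - ∑ x ∈ C, ∑ y ∈ C, ∑ z ∈ C, K x y z * a x y -
        ∑ x ∈ C, ∑ y ∈ C, ∑ z ∈ C, K x y z * a y z -
        ∑ x ∈ C, ∑ y ∈ C, ∑ z ∈ C, K x y z * a x z +
        2 * ∑ x ∈ C, ∑ y ∈ C, ∑ z ∈ C, K x y z * (a x y * a y z) := by
    simp only [mul_sum, ← sum_sub_distrib, ← sum_add_distrib]
    exact sum_congr rfl fun x _ => sum_congr rfl fun y _ => sum_congr rfl fun z _ => by ring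
  rw [e5, e1, e2, e3, e4] at key
  linarith

end Pool.Agent.N966.LS

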