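import Pool.Agent.N966.LS.Good5
import Pool.Agent.N803.LS.Tang

/-!
# KT12: assembly of the real inequality for k = 5
-/

set_option autoImplicit false

namespace Pool.Agent.N966.LS.K5

open Pool.Agent.N356.SP Pool.Agent.N332.SK
open scoped Topology

/-- the statement of LS18a, first part -/
def ExistsY : Prop := ∀ {n β K Q : ℝ}, Good' n β K → 0 < Q → Q < 1 →
  ∃ y, 0 < y ∧ (1 - 1 / n) * β * y < 1 ∧ Q * (1 + (1 - 1 / n) * y) ^ (1 + β) = K * y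

/-- the statement of LS18a, second part -/
def SignY : Prop := ∀ {n β K Q : ℝ}, Good' n β K → 0 < Q → Q < 1 → ∀ {y₁ : ℝ},
  0 < y₁ → (1 - 1 / n) * β * y₁ < 1 → Q * (1 + (1 - 1 / n) * y₁) ^ (1 + β) = K * y₁ →
    (∀ y, 0 ≤ y → y ≤ y₁ → K * y ≤ Q * (1 + (1 - 1 / n) * y) ^ (1 + β)) ∧
    (∀ y, y₁ ≤ y → y ≤ n → Q * (1 + (1 - 1 / n) * y) ^ (1 + β) ≤ K * y) ∧ y₁ < n

/-- the statement of LS18a, third part -/
def MinU : Prop := ∀ {n β K Q : ℝ}, Good' n β K → 0 < Q → Q < 1 → ∀ {y₁ : ℝ},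
  0 < y₁ → (1 - 1 / n) * β * y₁ < 1 → Q * (1 + (1 - 1 / n) * y₁) ^ (1 + β) = K * y₁ →
    ∀ {u : ℝ}, 0 ≤ u → u ≤ 1 →
    ((1 - y₁ / n) / ((1 + (1 - 1 / n) * y₁) ^ ((1 + β) / 2) *
      (1 - y₁ / n) ^ (((n - 1) * β + 1) / 2))) ^ 2 * (1 - u) ^ (n * β) ≤
      (1 - (Q * u ^ β) ^ (1 / (1 + β))) ^ (1 + β)

/-- the statement of KT10 -/
def Curve : Prop := ∀ {Y η s : ℝ}, 0 ≤ Y → Y ≤ 3 / 10 → 0 < η → η ≤ 1 / 5 → 0 ≤ s →
  2 * s + η ≤ 111 / 125 →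
    (1 + (1 - η) * Y) ^ ((1 / 2 + s) / (1 - η)) * N5 Y ^ ((1:ℝ) / 10) ≤
    (1 - η * Y) ^ (-(s / η)) + Y * (1 + Y / 2)

/-- the bound for `B5` at the point of tangency -/
theorem B5_le {Y : ℝ} (hY0 : 0 ≤ Y) : B5 (√(Y / c5) * (1 + Y / 2)) ≤ N5 Y ^ ((1:ℝ) / 10) := by
  have hc := c5_ge
  have hc0 := c5_pos
  have h1 : √(Y / c5) ^ 2 = Y / c5 := Real.sq_sqrt (by positivity)
  have h2 : (√(Y / c5) * (1 + Y / 2)) ^ 2 = Y / c5 * (1 + Y / 2) ^ 2 := by rw [mul_pow, h1]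
  have h3 : (√(Y / c5) * (1 + Y / 2)) ^ 4 = (Y / c5) ^ 2 * (1 + Y / 2) ^ 4 := by
    calc (√(Y / c5) * (1 + Y / 2)) ^ 4 = ((√(Y / c5) * (1 + Y / 2)) ^ 2) ^ 2 := by ring
      _ = _ := by rw [h2]; ring
  have h30 : (√(Y / c5) * (1 + Y / 2)) ^ 6 = (Y / c5) ^ 3 * (1 + Y / 2) ^ 6 := by
    calc (√(Y / c5) * (1 + Y / 2)) ^ 6 = ((√(Y / c5) * (1 + Y / 2)) ^ 2) ^ 3 := by ring
      _ = _ := by rw [h2]; ring
  unfold B5 N5
  rw [h2, h3, h30]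
  apply Real.rpow_le_rpow (by positivity) _ (by norm_num)
  have h4 : 5 * c5 * (Y / c5 * (1 + Y / 2) ^ 2) = 5 * (1 + Y / 2) ^ 2 * Y := by
    field_simp
  have h5 : (268 : ℝ) * (Y / c5) ^ 2 ≤ 1511 / 200 * Y ^ 2 := by
    rw [div_pow, ← mul_div_assoc, div_le_iff₀ (by positivity)]
    have h6 : (1489 / 250 : ℝ) ^ 2 ≤ c5 ^ 2 := pow_le_pow_left₀ (by norm_num) hc 2
    nlinarith [sq_nonneg Y]
  have h7 : 268 * ((Y / c5) ^ 2 * (1 + Y / 2) ^ 4) ≤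
      1511 / 200 * Y ^ 2 * (1 + Y / 2) ^ 4 := by
    rw [← mul_assoc]
    exact mul_le_mul_of_nonneg_right h5 (by positivity)
  have h8 : (700 : ℝ) * (Y / c5) ^ 3 ≤ 1657 / 500 * Y ^ 3 := by
    rw [div_pow, ← mul_div_assoc, div_le_iff₀ (by positivity)]
    have h6 : (1489 / 250 : ℝ) ^ 3 ≤ c5 ^ 3 := pow_le_pow_left₀ (by norm_num) hc 3
    have h9 : 0 ≤ Y ^ 3 := by positivity
    nlinarith
  have h10 : 700 * ((Y / c5) ^ 3 * (1 + Y / 2) ^ 6) ≤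
      1657 / 500 * Y ^ 3 * (1 + Y / 2) ^ 6 := by
    rw [← mul_assoc]
    exact mul_le_mul_of_nonneg_right h8 (by positivity)
  linarith

theorem t_le {Y : ℝ} (hY0 : 0 ≤ Y) (hY1 : Y ≤ 3 / 10) : √(Y / c5) * (1 + Y / 2) ≤ 13 / 50 := by
  have hc := c5_ge
  have hc0 := c5_pos
  have h1 : √(Y / c5) ^ 2 = Y / c5 := Real.sq_sqrt (by positivity)
  have h2 : (√(Y / c5) * (1 + Y / 2)) ^ 2 ≤ (13 / 50) ^ 2 := by
    rw [mul_pow, h1, div_mul_eq_mul_div, div_le_iff₀ hc0]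
    have h3 : (1 + Y / 2) ^ 2 ≤ (23 / 20) ^ 2 := pow_le_pow_left₀ (by linarith) (by linarith) 2
    nlinarith
  exact le_of_pow_le_pow_left₀ (by norm_num) (by norm_num) h2

/-- the case `Q < 1` -/
theorem lt_case (HY : ExistsY) (HS : SignY) (HM : MinU) (HC : Curve) {n : ℕ} (hn : 5 ≤ n) {b : ℝ}
    (hb : (n : ℝ) ^ b = c5) {φ Q : ℝ} (hφ : 0 < φ) (hQ0 : 0 < Q) (hQ1 : Q < 1)
    (H : ∀ t, 0 ≤ t → t ≤ 13 / 50 → √φ + t * √Q ≤ B5 t) {u : ℝ} (hu0 : 0 ≤ u) (hu1 : u ≤ 1) :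
    φ * (1 - u) ^ ((n : ℝ) * b) ≤ (1 - (Q * u ^ b) ^ (1 / (1 + b))) ^ (1 + b) := by
  obtain ⟨hG, hb2, hb3, hc⟩ := good5 hn hb
  have hc0 := c5_pos
  have hb0 := hG.hβ
  have hn3 : (5 : ℝ) ≤ n := by exact_mod_cast hn
  have hn0 : (0 : ℝ) < n := by linarith
  obtain ⟨Y, hY0, hpY, hY⟩ := HY hG hQ0 hQ1
  have hη0 : 0 < 1 / (n : ℝ) := by positivity
  have hη3 : 1 / (n : ℝ) ≤ 1 / 5 := one_div_le_one_div_of_le (by norm_num) hn3
  have hY1 : Y < 3 / 10 := by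
    by_contra hcon
    push Not at hcon
    have h1 := (HS hG hQ0 hQ1 hY0 hpY hY).1 (3 / 10) (by norm_num) hcon
    rw [mul_comm (1 - 1 / (n : ℝ)) (3 / 10)] at h1
    have h2 : Q * (1 + 3 / 10 * (1 - 1 / (n : ℝ))) ^ (1 + b) ≤ Q * (3 / 10 * c5) :=
      mul_le_mul_of_nonneg_left hb3 hQ0.le
    nlinarith
  set η : ℝ := 1 / (n : ℝ) with hη
  set s : ℝ := ((1 - η) * b - η) / 2 with hs
  have hnη : (n : ℝ) * η = 1 := by rw [hη]; field_simp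
  have hs0 : 0 ≤ s := by
    have h1 := hG.hnp
    have h2 : η * 1 ≤ η * (((n : ℝ) - 1) * b) := mul_le_mul_of_nonneg_left h1 hη0.le
    have h3 : η * (((n : ℝ) - 1) * b) = (1 - η) * b := by
      linear_combination b * hnη
    rw [hs]
    linarith
  have hs1 : 2 * s + η ≤ 111 / 125 := by
    rw [hs]
    linarith
  have hC := HC hY0.le hY1.le hη0 hη3 hs0 hs1
  set P : ℝ := 1 + (1 - η) * Y with hP
  have hP0 : 0 < P := by
    have : 0 ≤ (1 - η) * Y := mul_nonneg (by linarith) hY0.le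
    linarith
  have e1 : (1 / 2 + s) / (1 - η) = (1 + b) / 2 := by
    rw [div_eq_iff (by linarith), hs]
    ring
  have e2 : -(s / η) = (1 - ((n : ℝ) - 1) * b) / 2 := by
    have h1 : s / η = s * n := by
      rw [div_eq_iff hη0.ne', mul_assoc, hnη, mul_one]
    rw [h1, hs]
    linear_combination (-(1 / 2 : ℝ) * (-b - 1)) * hnη
  rw [e1, e2] at hC
  set W : ℝ := P ^ ((1 + b) / 2) with hW
  have hW0 : 0 < W := Real.rpow_pos_of_pos hP0 _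
  have hW2 : W ^ 2 = P ^ (1 + b) := by
    rw [hW, ← Real.rpow_natCast, ← Real.rpow_mul hP0.le]
    congr 1
    push_cast
    ring
  -- the product
  have hprod : √(Y / c5) * (1 + Y / 2) * √Q * W = Y * (1 + Y / 2) := by
    have h1 : √Q * W = √(c5 * Y) := by
      have h2 : √Q * W = √(Q * W ^ 2) := by
        rw [Real.sqrt_mul hQ0.le, Real.sqrt_sq hW0.le]
      rw [h2, hW2, hY]
    have h3 : √(Y / c5) * √(c5 * Y) = Y := by
      rw [← Real.sqrt_mul (by positivity)]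
      have h4 : Y / c5 * (c5 * Y) = Y ^ 2 := by field_simp
      rw [h4, Real.sqrt_sq hY0.le]
    calc √(Y / c5) * (1 + Y / 2) * √Q * W = (1 + Y / 2) * (√(Y / c5) * (√Q * W)) := by ring
      _ = (1 + Y / 2) * Y := by rw [h1, h3]
      _ = _ := by ring
  have hH := (H _ (by positivity) (t_le hY0.le hY1.le)).trans (B5_le hY0.le)
  set R : ℝ := N5 Y ^ ((1:ℝ) / 10) with hR
  have hYη : 0 < 1 - Y / n := by
    have h1 : Y / n = Y * η := by rw [hη]; ring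
    rw [h1]
    nlinarith
  have e3 : 1 - η * Y = 1 - Y / n := by rw [hη]; ring
  rw [e3] at hC
  have hmain : √φ * W ≤ (1 - Y / n) ^ ((1 - ((n : ℝ) - 1) * b) / 2) := by
    have h1 := mul_le_mul_of_nonneg_right hH hW0.le
    have h2 : (√φ + √(Y / c5) * (1 + Y / 2) * √Q) * W = √φ * W + Y * (1 + Y / 2) := by
      rw [add_mul, hprod]
    rw [h2] at h1
    linarith
  refine le_trans ?_ (HM hG hQ0 hQ1 hY0 hpY hY hu0 hu1)
  apply mul_le_mul_of_nonneg_right _ (Real.rpow_nonneg (by linarith) _)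
  have hq : (1 - Y / (n : ℝ)) / ((1 + (1 - 1 / (n : ℝ)) * Y) ^ ((1 + b) / 2) *
      (1 - Y / (n : ℝ)) ^ ((((n : ℝ) - 1) * b + 1) / 2)) =
      (1 - Y / n) ^ ((1 - ((n : ℝ) - 1) * b) / 2) / W := by
    have h1 : (1 - Y / (n : ℝ)) ^ ((1 - ((n : ℝ) - 1) * b) / 2) *
        (1 - Y / (n : ℝ)) ^ ((((n : ℝ) - 1) * b + 1) / 2) = 1 - Y / n := by
      rw [← Real.rpow_add hYη]
      have : (1 - ((n : ℝ) - 1) * b) / 2 + (((n : ℝ) - 1) * b + 1) / 2 = 1 := by ring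
      rw [this, Real.rpow_one]
    have h2 : 0 < (1 - Y / (n : ℝ)) ^ ((((n : ℝ) - 1) * b + 1) / 2) :=
      Real.rpow_pos_of_pos hYη _
    have h3 : (1 + (1 - 1 / (n : ℝ)) * Y) ^ ((1 + b) / 2) = W := by rw [hW, hP, hη]
    rw [h3, div_eq_div_iff (by positivity) hW0.ne']
    nth_rewrite 1 [← h1]
    ring
  rw [hq]
  have h5 : √φ ≤ (1 - Y / n) ^ ((1 - ((n : ℝ) - 1) * b) / 2) / W := by
    rw [le_div_iff₀ hW0]
    exact hmain
  calc φ = √φ ^ 2 := (Real.sq_sqrt hφ.le).symm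
    _ ≤ _ := pow_le_pow_left₀ (Real.sqrt_nonneg _) h5 2

/-- KT12 -/
theorem realOK5_of (HY : ExistsY) (HS : SignY) (HM : MinU) (HC : Curve) {n : ℕ} (hn : 5 ≤ n)
    {b : ℝ} (hb : (n : ℝ) ^ b = c5) : RealOK n b B5 (13 / 50) := by
  intro φ Q hφ hQ0 hQ1 H u hu0 hu1
  rcases hQ1.eq_or_lt with rfl | hlt
  · have hb0 := b_pos hn hb
    have hev : ∀ Q' ∈ Set.Ioo (0:ℝ) 1,
        φ * (1 - u) ^ ((n : ℝ) * b) ≤ (1 - (Q' * u ^ b) ^ (1 / (1 + b))) ^ (1 + b) := by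
      intro Q' hQ'
      refine lt_case HY HS HM HC hn hb hφ hQ'.1 hQ'.2 (fun t ht0 ht1 => ?_) hu0 hu1
      have h1 := H t ht0 ht1
      have h2 : √Q' ≤ √1 := Real.sqrt_le_sqrt hQ'.2.le
      have h3 := mul_le_mul_of_nonneg_left h2 ht0
      linarith
    have hc : ContinuousAt (fun Q' : ℝ => (1 - (Q' * u ^ b) ^ (1 / (1 + b))) ^ (1 + b)) 1 := by
      refine ContinuousAt.rpow_const ?_ (Or.inr (by linarith))
      refine continuousAt_const.sub ?_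
      exact ContinuousAt.rpow_const (by fun_prop) (Or.inr (by positivity))
    have ht : Filter.Tendsto (fun Q' : ℝ => (1 - (Q' * u ^ b) ^ (1 / (1 + b))) ^ (1 + b))
        (𝓝[<] 1) (𝓝 ((1 - (1 * u ^ b) ^ (1 / (1 + b))) ^ (1 + b))) :=
      hc.tendsto.mono_left nhdsWithin_le_nhds
    refine ge_of_tendsto ht ?_
    filter_upwards [Ioo_mem_nhdsLT (zero_lt_one' ℝ)] with Q' hQ'
    exact hev Q' hQ'
  · exact lt_case HY HS HM HC hn hb hφ hQ0 hlt H hu0 hu1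

/-- KT12 from KT10 -/
theorem realOK5_curve (HC : Curve) {n : ℕ} (hn : 5 ≤ n) {b : ℝ} (hb : (n : ℝ) ^ b = c5) :
    RealOK n b B5 (13 / 50) :=
  realOK5_of (fun h => Pool.Agent.N803.LS.exists_y' h)
    (fun h hQ0 hQ1 _ h1 h2 h3 => Pool.Agent.N803.LS.sign_y' h hQ0 hQ1 h1 h2 h3)
    (fun h hQ0 hQ1 _ h1 h2 h3 _ h4 h5 => Pool.Agent.N803.LS.min_u' h hQ0 hQ1 h1 h2 h3 h4 h5)
    HC hn hb

end Pool.Agent.N966.LS.K5


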