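import Pool.Agent.N645.LS.L7a
import Pool.Agent.N332.SK.Defs5

/-!
# KT6: the two block inequality for k = 5
-/

set_option autoImplicit false

namespace Pool.Agent.N966.LS.K5

open Finset Pool.Agent.N356.SP Pool.Agent.N332.SK
open Pool.Agent.N645.LS (cosp_cont cosp_add cosp_smul)

/-- the Cauchy-Schwarz inequality on `[0, 1]` -/
theorem cs {u v : ℝ → ℝ} (hu : Continuous u) (hv : Continuous v) :
    (∫ x in (0:ℝ)..1, u x * v x) ^ 2 ≤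
      (∫ x in (0:ℝ)..1, u x ^ 2) * ∫ x in (0:ℝ)..1, v x ^ 2 := by
  have h1 : ∀ s : ℝ, 0 ≤ (∫ x in (0:ℝ)..1, v x ^ 2) * (s * s) +
      (2 * ∫ x in (0:ℝ)..1, u x * v x) * s + ∫ x in (0:ℝ)..1, u x ^ 2 := by
    intro s
    have h2 : 0 ≤ ∫ x in (0:ℝ)..1, (u x + s * v x) ^ 2 :=
      intervalIntegral.integral_nonneg zero_le_one fun x _ => sq_nonneg _
    have i1 : IntervalIntegrable (fun x => (s * s) * v x ^ 2) MeasureTheory.volume 0 1 :=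
      (continuous_const.mul (hv.pow 2)).intervalIntegrable 0 1
    have i2 : IntervalIntegrable (fun x => (2 * s) * (u x * v x)) MeasureTheory.volume 0 1 :=
      (continuous_const.mul (hu.mul hv)).intervalIntegrable 0 1
    have i3 : IntervalIntegrable (fun x => u x ^ 2) MeasureTheory.volume 0 1 :=
      (hu.pow 2).intervalIntegrable 0 1
    have h3 : ∫ x in (0:ℝ)..1, (u x + s * v x) ^ 2 =
        (s * s) * (∫ x in (0:ℝ)..1, v x ^ 2) + (2 * s) * (∫ x in (0:ℝ)..1, u x * v x) +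
          ∫ x in (0:ℝ)..1, u x ^ 2 := by
      rw [← intervalIntegral.integral_const_mul, ← intervalIntegral.integral_const_mul,
        ← intervalIntegral.integral_add i1 i2, ← intervalIntegral.integral_add (i1.add i2) i3]
      refine intervalIntegral.integral_congr fun x _ => ?_
      ring
    rw [h3] at h2
    linarith
  have h2 := discrim_le_zero h1
  unfold discrim at h2
  nlinarith

theorem AJ_cs (g f : ℤ →₀ ℝ) (a b c d : ℕ) :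
    AJ (a + c) (b + d) g f ^ 2 ≤ AJ (2 * a) (2 * b) g f * AJ (2 * c) (2 * d) g f := by
  have hg := cosp_cont g
  have hf := cosp_cont f
  have h := cs (u := fun x => cosp g x ^ a * cosp f x ^ b)
    (v := fun x => cosp g x ^ c * cosp f x ^ d) (by fun_prop) (by fun_prop)
  unfold AJ
  calc _ = (∫ x in (0:ℝ)..1, cosp g x ^ a * cosp f x ^ b * (cosp g x ^ c * cosp f x ^ d)) ^ 2 := by
        congr 1
        exact intervalIntegral.integral_congr fun x _ => by ring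
    _ ≤ _ := h
    _ = _ := by
        congr 1
        · exact intervalIntegral.integral_congr fun x _ => by ring
        · exact intervalIntegral.integral_congr fun x _ => by ring

theorem AJ_nn (g f : ℤ →₀ ℝ) (a b : ℕ) : 0 ≤ AJ (2 * a) (2 * b) g f := by
  unfold AJ
  refine intervalIntegral.integral_nonneg zero_le_one fun x _ => ?_
  rw [pow_mul, pow_mul]
  positivity

theorem AJ_zero (g f : ℤ →₀ ℝ) : AJ 0 10 g f = Mc 5 f := by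
  unfold AJ Mc
  exact intervalIntegral.integral_congr fun x _ => by ring

theorem AJ_smul (g f : ℤ →₀ ℝ) (t : ℝ) (i j : ℕ) : AJ i j g (t • f) = t ^ j * AJ i j g f := by
  unfold AJ
  rw [← intervalIntegral.integral_const_mul]
  refine intervalIntegral.integral_congr fun x _ => ?_
  simp only [cosp_smul]
  ring

theorem Mc_smul (f : ℤ →₀ ℝ) (t : ℝ) : Mc 5 (t • f) = t ^ 10 * Mc 5 f := by
  unfold Mc
  rw [← intervalIntegral.integral_const_mul]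
  refine intervalIntegral.integral_congr fun x _ => ?_
  simp only [cosp_smul]
  ring

theorem Mc_exp (g f : ℤ →₀ ℝ) (t : ℝ) : Mc 5 (g + t • f) = Mc 5 g + 10 * t * AJ 9 1 g f +
    45 * t ^ 2 * AJ 8 2 g f + 120 * t ^ 3 * AJ 7 3 g f + 210 * t ^ 4 * AJ 6 4 g f +
    252 * t ^ 5 * AJ 5 5 g f + 210 * t ^ 6 * AJ 4 6 g f + 120 * t ^ 7 * AJ 3 7 g f +
    45 * t ^ 8 * AJ 2 8 g f + 10 * t ^ 9 * AJ 1 9 g f + t ^ 10 * Mc 5 f := by
  have hg := cosp_cont g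
  have hf := cosp_cont f
  have h1 : Mc 5 (g + t • f) = ∫ x in (0:ℝ)..1, ∑ i ∈ range 11,
      (((10).choose i : ℝ) * t ^ i) * (cosp g x ^ (10 - i) * cosp f x ^ i) := by
    unfold Mc
    refine intervalIntegral.integral_congr fun x _ => ?_
    simp only [cosp_add, cosp_smul]
    simp only [sum_range_succ, sum_range_zero, Nat.choose]
    push_cast
    ring
  rw [h1, intervalIntegral.integral_finsetSum (fun i _ =>
    (Continuous.intervalIntegrable (by fun_prop) 0 1))]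
  simp only [intervalIntegral.integral_const_mul, sum_range_succ, sum_range_zero, Nat.choose]
  unfold Mc AJ
  norm_num

/-- the statement of KT5 -/
def PI5st : Prop := ∀ {y A2 A3 A4 A5 A6 A7 A8 A9 : ℝ}, 0 ≤ y → y ≤ 17 / 250 → 0 ≤ A2 →
  0 ≤ A4 → 0 ≤ A6 → 0 ≤ A8 → 9 / c5 * A2 ≤ y →
  A3 ^ 2 ≤ 367 / 500 * y ^ 2 * (y - 9 / c5 * A2) → A4 ^ 2 ≤ A2 * A6 →
  A6 ^ 2 ≤ A4 * A8 → A8 ^ 2 ≤ A6 * y ^ 5 → A5 ^ 2 ≤ A4 * A6 →
  A7 ^ 2 ≤ A6 * A8 → A9 ^ 2 ≤ A8 * y ^ 5 →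
    1 + 45 * A2 + 120 * A3 + 210 * A4 + 252 * A5 + 210 * A6 + 120 * A7 + 45 * A8 + 10 * A9 +
      y ^ 5 ≤ 1 + 5 * c5 * y + 268 * y ^ 2 + 700 * y ^ 3

theorem two_block5_of (PI : PI5st) {g f : ℤ →₀ ℝ} {t : ℝ} (ht0 : 0 ≤ t)
    (ht1 : t ^ 2 ≤ 17 / 250)
    (star5 : 9 / c5 * AJ 8 2 g (t • f) ≤ 252 * t ^ 2 ∧
      AJ 7 3 g (t • f) ^ 2 ≤ 367 / 500 * 252 * (t ^ 2) ^ 2 *
        (252 * t ^ 2 - 9 / c5 * AJ 8 2 g (t • f)))
    (A1_eq : AJ 9 1 g f = 0) (hG : Mc 5 g ≤ 252) (hF : Mc 5 f ≤ 252) :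
    Mc 5 (g + t • f) ≤ 252 * (1 + 5 * c5 * t ^ 2 + 268 * t ^ 4 + 700 * t ^ 6) := by
  rw [AJ_smul, AJ_smul] at star5
  obtain ⟨s1, s2⟩ := star5
  have n82 : 0 ≤ AJ 8 2 g f := AJ_nn g f 4 1
  have n64 : 0 ≤ AJ 6 4 g f := AJ_nn g f 3 2
  have n46 : 0 ≤ AJ 4 6 g f := AJ_nn g f 2 3
  have n28 : 0 ≤ AJ 2 8 g f := AJ_nn g f 1 4
  have c64 : AJ 6 4 g f ^ 2 ≤ AJ 8 2 g f * AJ 4 6 g f := AJ_cs g f 4 1 2 3
  have c46 : AJ 4 6 g f ^ 2 ≤ AJ 6 4 g f * AJ 2 8 g f := AJ_cs g f 3 2 1 4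
  have c28 : AJ 2 8 g f ^ 2 ≤ AJ 4 6 g f * AJ 0 10 g f := AJ_cs g f 2 3 0 5
  have c55 : AJ 5 5 g f ^ 2 ≤ AJ 6 4 g f * AJ 4 6 g f := AJ_cs g f 3 2 2 3
  have c37 : AJ 3 7 g f ^ 2 ≤ AJ 4 6 g f * AJ 2 8 g f := AJ_cs g f 2 3 1 4
  have c19 : AJ 1 9 g f ^ 2 ≤ AJ 2 8 g f * AJ 0 10 g f := AJ_cs g f 1 4 0 5
  rw [AJ_zero] at c28 c19
  have c28' : AJ 2 8 g f ^ 2 ≤ AJ 4 6 g f * 252 := c28.trans (mul_le_mul_of_nonneg_left hF n46)
  have c19' : AJ 1 9 g f ^ 2 ≤ AJ 2 8 g f * 252 := c19.trans (mul_le_mul_of_nonneg_left hF n28)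
  have h := PI (y := t ^ 2) (A2 := t ^ 2 * AJ 8 2 g f / 252) (A3 := t ^ 3 * AJ 7 3 g f / 252)
    (A4 := t ^ 4 * AJ 6 4 g f / 252) (A5 := t ^ 5 * AJ 5 5 g f / 252)
    (A6 := t ^ 6 * AJ 4 6 g f / 252) (A7 := t ^ 7 * AJ 3 7 g f / 252)
    (A8 := t ^ 8 * AJ 2 8 g f / 252) (A9 := t ^ 9 * AJ 1 9 g f / 252)
    (by positivity) ht1 (by positivity) (by positivity) (by positivity) (by positivity)
    (by linarith)
    (by
      have e : (t ^ 3 * AJ 7 3 g f / 252) ^ 2 = (t ^ 3 * AJ 7 3 g f) ^ 2 / 252 ^ 2 := by ring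
      rw [e, div_le_iff₀ (by norm_num)]
      calc (t ^ 3 * AJ 7 3 g f) ^ 2 ≤ 367 / 500 * 252 * (t ^ 2) ^ 2 *
            (252 * t ^ 2 - 9 / c5 * (t ^ 2 * AJ 8 2 g f)) := s2
        _ = _ := by ring)
    (by
      have h2 : 0 ≤ t ^ 8 := by positivity
      calc (t ^ 4 * AJ 6 4 g f / 252) ^ 2 = t ^ 8 * AJ 6 4 g f ^ 2 / 252 ^ 2 := by ring
        _ ≤ t ^ 8 * (AJ 8 2 g f * AJ 4 6 g f) / 252 ^ 2 := by gcongr
        _ = _ := by ring)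
    (by
      have h2 : 0 ≤ t ^ 12 := by positivity
      calc (t ^ 6 * AJ 4 6 g f / 252) ^ 2 = t ^ 12 * AJ 4 6 g f ^ 2 / 252 ^ 2 := by ring
        _ ≤ t ^ 12 * (AJ 6 4 g f * AJ 2 8 g f) / 252 ^ 2 := by gcongr
        _ = _ := by ring)
    (by
      have h2 : 0 ≤ t ^ 16 := by positivity
      calc (t ^ 8 * AJ 2 8 g f / 252) ^ 2 = t ^ 16 * AJ 2 8 g f ^ 2 / 252 ^ 2 := by ring
        _ ≤ t ^ 16 * (AJ 4 6 g f * 252) / 252 ^ 2 := by gcongr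
        _ = _ := by ring)
    (by
      have h2 : 0 ≤ t ^ 10 := by positivity
      calc (t ^ 5 * AJ 5 5 g f / 252) ^ 2 = t ^ 10 * AJ 5 5 g f ^ 2 / 252 ^ 2 := by ring
        _ ≤ t ^ 10 * (AJ 6 4 g f * AJ 4 6 g f) / 252 ^ 2 := by gcongr
        _ = _ := by ring)
    (by
      have h2 : 0 ≤ t ^ 14 := by positivity
      calc (t ^ 7 * AJ 3 7 g f / 252) ^ 2 = t ^ 14 * AJ 3 7 g f ^ 2 / 252 ^ 2 := by ring
        _ ≤ t ^ 14 * (AJ 4 6 g f * AJ 2 8 g f) / 252 ^ 2 := by gcongr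
        _ = _ := by ring)
    (by
      have h2 : 0 ≤ t ^ 18 := by positivity
      calc (t ^ 9 * AJ 1 9 g f / 252) ^ 2 = t ^ 18 * AJ 1 9 g f ^ 2 / 252 ^ 2 := by ring
        _ ≤ t ^ 18 * (AJ 2 8 g f * 252) / 252 ^ 2 := by gcongr
        _ = _ := by ring)
  rw [Mc_exp, A1_eq]
  have ht10 : 0 ≤ t ^ 10 := by positivity
  have h6 : t ^ 10 * Mc 5 f ≤ t ^ 10 * 252 := mul_le_mul_of_nonneg_left hF ht10
  have e : (t ^ 2) ^ 5 = t ^ 10 := by ring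
  have e4 : (t ^ 2) ^ 2 = t ^ 4 := by ring
  have e6 : (t ^ 2) ^ 3 = t ^ 6 := by ring
  rw [e, e4, e6] at h
  linarith

/-- the statement of KT4 -/
def Star5 {m : ℕ} (C : Finset (ZMod m)) (θ : ZMod m → ZMod m → ℝ) : Prop :=
  ∀ {g f : ℤ →₀ ℝ}, GoodC C θ → (∀ n, 0 ≤ g n) → (∀ n, 0 ≤ f n) →
    (∀ n ∈ g.support, ((n : ℤ) : ZMod m) = 0) → (∀ n ∈ f.support, ((n : ℤ) : ZMod m) ∈ C) →
    ∀ {G y : ℝ}, 0 < G → 0 ≤ y → Mc 5 g ≤ G → Mc 5 f ≤ G * y ^ 5 →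
      0 ≤ AJ 8 2 g f ∧ 9 / c5 * AJ 8 2 g f ≤ G * y ∧
      AJ 7 3 g f ^ 2 ≤ 367 / 500 * G * y ^ 2 * (G * y - 9 / c5 * AJ 8 2 g f)

/-- the statement of LS8d -/
def A1Eq {m : ℕ} (C : Finset (ZMod m)) : Prop :=
  ∀ {g f : ℤ →₀ ℝ}, (∀ s ∈ C, -s ∈ C) → (∀ s ∈ C, s ≠ -s) → (∀ n, 0 ≤ g n) → (∀ n, 0 ≤ f n) →
    (∀ n ∈ g.support, ((n : ℤ) : ZMod m) = 0) → (∀ n ∈ f.support, ((n : ℤ) : ZMod m) ∈ C) →
    ∀ i : ℕ, AJ i 1 g f = 0

/-- KT6 -/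
theorem two_block5 (PI : PI5st) {m : ℕ} {C : Finset (ZMod m)} {θ : ZMod m → ZMod m → ℝ}
    {g f : ℤ →₀ ℝ} (star5 : Star5 C θ) (A1_eq : A1Eq C)
    (h : GoodC C θ) (hg0 : ∀ n, 0 ≤ g n) (hf0 : ∀ n, 0 ≤ f n)
    (hg : ∀ n ∈ g.support, ((n : ℤ) : ZMod m) = 0)
    (hf : ∀ n ∈ f.support, ((n : ℤ) : ZMod m) ∈ C) (hG : Mc 5 g ≤ 252) (hF : Mc 5 f ≤ 252)
    {t : ℝ} (ht0 : 0 ≤ t) (ht1 : t ^ 2 ≤ 17 / 250) :
    Mc 5 (g + t • f) ≤ 252 * (1 + 5 * c5 * t ^ 2 + 268 * t ^ 4 + 700 * t ^ 6) := by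
  have h1 := star5 (g := g) (f := t • f) h hg0
    (fun n => by rw [Finsupp.smul_apply, smul_eq_mul]; exact mul_nonneg ht0 (hf0 n)) hg
    (fun n hn => hf n (Finsupp.support_smul hn)) (G := 252) (y := t ^ 2) (by norm_num)
    (by positivity) hG (by
      rw [Mc_smul]
      calc t ^ 10 * Mc 5 f ≤ t ^ 10 * 252 := mul_le_mul_of_nonneg_left hF (by positivity)
        _ = _ := by ring)
  exact two_block5_of PI ht0 ht1 h1.2 (A1_eq h.neg h.ne hg0 hf0 hg hf 9) hG hF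

end Pool.Agent.N966.LS.K5

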