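import Pool.Agent.N966.LS.RealOK
import Pool.Agent.N803.LS.Tang

/-!
# LS19: the real inequality from LS17
-/

set_option autoImplicit false

namespace Pool.Agent.N966.LS

open Pool.Agent.N356.SP

theorem realOK3_curve (HC : Curve) {n : ℕ} (hn : 3 ≤ n) {b : ℝ} (hb : (n : ℝ) ^ b = c3) :
    RealOK n b B3 (157 / 200) :=
  realOK3_of (fun h => Pool.Agent.N803.LS.exists_y' h)
    (fun h hQ0 hQ1 _ h1 h2 h3 => Pool.Agent.N803.LS.sign_y' h hQ0 hQ1 h1 h2 h3)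
    (fun h hQ0 hQ1 _ h1 h2 h3 _ h4 h5 => Pool.Agent.N803.LS.min_u' h hQ0 hQ1 h1 h2 h3 h4 h5)
    HC hn hb

end Pool.Agent.N966.LS

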