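import Pool.Agent.N356.SP.Defs

/-!
# LS18b: the parameters for `K ^ 3 = 50`
-/

set_option autoImplicit false

namespace Pool.Agent.N966.LS

open Pool.Agent.N356.SP

theorem c3_pos : 0 < c3 := by
  unfold c3
  positivity

theorem c3_cube : c3 ^ 3 = 50 := by
  unfold c3
  rw [← Real.rpow_natCast, ← Real.rpow_mul (by norm_num)]
  norm_num

theorem c3_ge : (921 : ℝ) / 250 ≤ c3 := by
  by_contra h
  push Not at h
  have h1 : c3 ^ 3 < (921 / 250 : ℝ) ^ 3 := pow_lt_pow_left₀ h c3_pos.le (by norm_num)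
  rw [c3_cube] at h1
  norm_num at h1

theorem b_pos {n : ℕ} (hn : 3 ≤ n) {b : ℝ} (hb : (n : ℝ) ^ b = c3) : 0 < b := by
  by_contra h
  push Not at h
  have h0 : (1 : ℝ) ≤ n := by exact_mod_cast (by omega : 1 ≤ n)
  have h1 : (n : ℝ) ^ b ≤ 1 := Real.rpow_le_one_of_one_le_of_nonpos h0 h
  have h2 := c3_ge
  rw [hb] at h1
  linarith

theorem b_le {n : ℕ} (hn : 3 ≤ n) {b : ℝ} (hb : (n : ℝ) ^ b = c3) {m k : ℕ} (hm : 0 < m)
    (h : (50 : ℕ) ^ m ≤ n ^ k) : b ≤ k / (3 * m) := by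
  by_contra hc
  push Not at hc
  have h0 : (1 : ℝ) < n := by exact_mod_cast (by omega : 1 < n)
  have hm' : (0 : ℝ) < m := by exact_mod_cast hm
  have h1 : (n : ℝ) ^ ((k : ℝ) / (3 * m)) < (n : ℝ) ^ b := Real.rpow_lt_rpow_of_exponent_lt h0 hc
  have h2 : ((n : ℝ) ^ ((k : ℝ) / (3 * m))) ^ (3 * m) < ((n : ℝ) ^ b) ^ (3 * m) :=
    pow_lt_pow_left₀ h1 (by positivity) (by omega)
  rw [hb, pow_mul c3, c3_cube, ← Real.rpow_natCast, ← Real.rpow_mul (by positivity)] at h2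
  have h3 : (k : ℝ) / (3 * m) * ((3 * m : ℕ) : ℝ) = k := by
    push_cast
    field_simp
  rw [h3, Real.rpow_natCast] at h2
  have h4 : (50 : ℝ) ^ m ≤ (n : ℝ) ^ k := by exact_mod_cast h
  linarith

theorem le_of_pow {x y : ℝ} {r : ℝ} {k : ℕ} (hx : 0 ≤ x) (hy : 0 ≤ y) (hk : k ≠ 0)
    (h : x ^ (r * k) ≤ y ^ k) : x ^ r ≤ y := by
  rw [Real.rpow_mul hx, Real.rpow_natCast] at h
  exact le_of_pow_le_pow_left₀ hk hy h

/-- Bernoulli -/
theorem bern {b B : ℝ} (hb : 0 < b) (hB : b ≤ B) : (1 + 1 / b) ^ b ≤ (1 + 1 / B) ^ B := by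
  have hB0 : 0 < B := by linarith
  have h1 : 1 + (B / b) * (1 / B) ≤ (1 + 1 / B) ^ (B / b) :=
    one_add_mul_self_le_rpow_one_add (by have : 0 < 1 / B := by positivity
                                         linarith) (by rw [le_div_iff₀ hb]; linarith)
  have h2 : 1 + (B / b) * (1 / B) = 1 + 1 / b := by field_simp
  rw [h2] at h1
  calc (1 + 1 / b) ^ b ≤ ((1 + 1 / B) ^ (B / b)) ^ b :=
        Real.rpow_le_rpow (by positivity) h1 hb.le
    _ = (1 + 1 / B) ^ B := by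
        rw [← Real.rpow_mul (by positivity)]
        congr 1
        field_simp

theorem c2_of {n b B w x : ℝ} (hn : 1 < n) (hb : 0 < b) (hB : b ≤ B) (hw : 1 - 1 / n ≤ w)
    (hx : (1 + 1 / B) ^ B ≤ x) (h : w * (1 + B) * x ≤ c3) :
    (1 + (1 - 1 / n) / ((1 - 1 / n) * b)) ^ (1 + b) ≤ c3 / ((1 - 1 / n) * b) := by
  have hn1 : 0 < 1 - 1 / n := by
    rw [sub_pos, div_lt_one (by linarith)]
    exact hn
  have e1 : (1 - 1 / n) / ((1 - 1 / n) * b) = 1 / b := by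
    rw [div_mul_eq_div_div, div_self hn1.ne']
  rw [e1, le_div_iff₀ (by positivity)]
  have h1 : (1 + 1 / b) ^ (1 + b) = (1 + 1 / b) * (1 + 1 / b) ^ b := by
    rw [Real.rpow_add (by positivity), Real.rpow_one]
  have h2 := (bern hb hB).trans hx
  have hx0 : 0 < x := lt_of_lt_of_le (by positivity) h2
  rw [h1]
  calc (1 + 1 / b) * (1 + 1 / b) ^ b * ((1 - 1 / n) * b) ≤
      (1 + 1 / b) * x * ((1 - 1 / n) * b) := by gcongr
    _ = (1 - 1 / n) * (1 + b) * x := by field_simp; ring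
    _ ≤ w * (1 + B) * x := by
        have : (1 - 1 / n) * (1 + b) ≤ w * (1 + B) :=
          mul_le_mul hw (by linarith) (by linarith) (by linarith)
        exact mul_le_mul_of_nonneg_right this hx0.le
    _ ≤ c3 := h

theorem hnp_of {n : ℕ} (hn : 3 ≤ n) {b : ℝ} (hb : (n : ℝ) ^ b = c3) : 1 ≤ ((n : ℝ) - 1) * b := by
  by_contra hc
  push Not at hc
  have h0 : (1 : ℝ) < n := by exact_mod_cast (by omega : 1 < n)
  have h1 : (n : ℝ) ^ (((n : ℝ) - 1) * b) < (n : ℝ) ^ (1 : ℝ) :=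
    Real.rpow_lt_rpow_of_exponent_lt h0 hc
  rw [mul_comm, Real.rpow_mul (by positivity), hb, Real.rpow_one] at h1
  obtain ⟨k, rfl⟩ : ∃ k, n = k + 1 := ⟨n - 1, by omega⟩
  have e1 : (((k + 1 : ℕ) : ℝ) - 1) = (k : ℝ) := by
    push_cast
    ring
  rw [e1, Real.rpow_natCast] at h1
  have h2 : (3 : ℝ) ^ k ≤ c3 ^ k :=
    pow_le_pow_left₀ (by norm_num) (by have := c3_ge; linarith) k
  have h3 : ((k + 1 : ℕ) : ℝ) ≤ 3 ^ k := by
    have h4 : k + 1 ≤ 3 ^ k := Nat.lt_pow_self (by norm_num)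
    exact_mod_cast h4
  linarith

/-- LS18b -/
theorem good3 {n : ℕ} (hn : 3 ≤ n) {b : ℝ} (hb : (n : ℝ) ^ b = c3) :
    Good' n b c3 ∧ (1 - 1 / (n : ℝ)) * b ≤ 3957 / 5000 ∧
      (1 + (1 - 1 / (n : ℝ))) ^ (1 + b) ≤ c3 ∧ (921 : ℝ) / 250 ≤ c3 := by
  have hb0 := b_pos hn hb
  have hge := c3_ge
  have hn1 : (1 : ℝ) < n := by exact_mod_cast (by omega : 1 < n)
  have hn2 : (2 : ℝ) ≤ n := by exact_mod_cast (by omega : 2 ≤ n)
  have hnp := hnp_of hn hb
  suffices h : (1 + (1 - 1 / (n : ℝ)) / ((1 - 1 / (n : ℝ)) * b)) ^ (1 + b) ≤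
      c3 / ((1 - 1 / (n : ℝ)) * b) ∧ (1 - 1 / (n : ℝ)) * b ≤ 3957 / 5000 ∧
      (1 + (1 - 1 / (n : ℝ))) ^ (1 + b) ≤ c3 from
    ⟨⟨hn2, hb0, hb, hnp, h.1⟩, h.2.1, h.2.2, hge⟩
  have h3 : n = 3 ∨ n = 4 ∨ 5 ≤ n := by omega
  rcases h3 with rfl | rfl | h5
  · have hb1 : b ≤ 146 / 123 := by
      have := b_le hn hb (m := 41) (k := 146) (by norm_num) (by norm_num)
      norm_num at this ⊢
      exact this
    refine ⟨?_, ?_, ?_⟩
    · refine c2_of (B := 3 / 2) (w := 2 / 3) (x := 11 / 5) hn1 hb0 (by linarith) (by norm_num)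
        ?_ (by linarith)
      refine le_of_pow (k := 2) (by norm_num) (by norm_num) (by norm_num) ?_
      have e : (3 / 2 : ℝ) * ((2 : ℕ) : ℝ) = ((3 : ℕ) : ℝ) := by norm_num
      rw [e, Real.rpow_natCast]
      norm_num
    · push_cast
      linarith
    · push_cast
      have h1 : (1 + (1 - 1 / 3 : ℝ)) ^ (1 + b) ≤ (1 + (1 - 1 / 3 : ℝ)) ^ (11 / 5 : ℝ) :=
        Real.rpow_le_rpow_of_exponent_le (by norm_num) (by linarith)
      refine h1.trans (le_trans ?_ hge)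
      refine le_of_pow (k := 5) (by norm_num) (by norm_num) (by norm_num) ?_
      have e : (11 / 5 : ℝ) * ((5 : ℕ) : ℝ) = ((11 : ℕ) : ℝ) := by norm_num
      rw [e, Real.rpow_natCast]
      norm_num
  · have hb1 : b ≤ 19 / 20 := by
      have := b_le hn hb (m := 20) (k := 57) (by norm_num) (by norm_num)
      norm_num at this ⊢
      exact this
    refine ⟨?_, ?_, ?_⟩
    · refine c2_of (B := 1) (w := 3 / 4) (x := 2) hn1 hb0 (by linarith) (by norm_num)
        (by rw [Real.rpow_one]; norm_num) (by linarith)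
    · push_cast
      linarith
    · push_cast
      have h1 : (1 + (1 - 1 / 4 : ℝ)) ^ (1 + b) ≤ (1 + (1 - 1 / 4 : ℝ)) ^ (2 : ℝ) :=
        Real.rpow_le_rpow_of_exponent_le (by norm_num) (by linarith)
      refine h1.trans (le_trans ?_ hge)
      norm_num
  · have h50 : (50 : ℕ) ^ 50 ≤ n ^ 123 :=
      le_trans (by norm_num) (Nat.pow_le_pow_left h5 123)
    have hb1 : b ≤ 41 / 50 := by
      have := b_le hn hb (m := 50) (k := 123) (by norm_num) h50
      norm_num at this ⊢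
      exact this
    have hn0 : (0 : ℝ) < n := by linarith
    have hw : 1 - 1 / (n : ℝ) ≤ 1 := by
      have : 0 < 1 / (n : ℝ) := by positivity
      linarith
    have hw0 : 0 ≤ 1 - 1 / (n : ℝ) := by
      rw [sub_nonneg, div_le_one hn0]
      exact hn1.le
    refine ⟨?_, ?_, ?_⟩
    · refine c2_of (B := 5 / 6) (w := 1) (x := 2) hn1 hb0 (by linarith) hw ?_ (by linarith)
      refine le_of_pow (k := 6) (by norm_num) (by norm_num) (by norm_num) ?_
      have e : (5 / 6 : ℝ) * ((6 : ℕ) : ℝ) = ((5 : ℕ) : ℝ) := by norm_num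
      rw [e, Real.rpow_natCast]
      norm_num
    · have h6 : n = 5 ∨ 6 ≤ n := by omega
      rcases h6 with rfl | h6
      · push_cast
        linarith
      · have h60 : (50 : ℕ) ^ 100 ≤ n ^ 219 :=
          le_trans (by norm_num) (Nat.pow_le_pow_left h6 219)
        have hb2 : b ≤ 73 / 100 := by
          have := b_le hn hb (m := 100) (k := 219) (by norm_num) h60
          norm_num at this ⊢
          exact this
        nlinarith
    · have h1 : (1 + (1 - 1 / (n : ℝ))) ^ (1 + b) ≤ (2 : ℝ) ^ (15 / 8 : ℝ) :=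
        calc (1 + (1 - 1 / (n : ℝ))) ^ (1 + b) ≤ (2 : ℝ) ^ (1 + b) :=
              Real.rpow_le_rpow (by linarith) (by linarith) (by linarith)
          _ ≤ (2 : ℝ) ^ (15 / 8 : ℝ) :=
              Real.rpow_le_rpow_of_exponent_le (by norm_num) (by linarith)
      refine h1.trans (le_trans ?_ hge)
      refine le_of_pow (k := 8) (by norm_num) (by norm_num) (by norm_num) ?_
      have e : (15 / 8 : ℝ) * ((8 : ℕ) : ℝ) = ((15 : ℕ) : ℝ) := by norm_num
      rw [e, Real.rpow_natCast]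
      norm_num

end Pool.Agent.N966.LS

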